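import Pool.Agent.Helper39.KZ.Stmts

/-! # Module GEN: all operators (compression to a finite dimensional subspace) -/

set_option autoImplicit false

open Polynomial

namespace KZ

theorem st_GEN.{u} : ST_FIN.{u} → ST_GEN.{u} := by
  intro hfin H _ _ B p m hm hM
  refine ContinuousLinearMap.opNorm_le_bound _ (by positivity) (fun x => ?_)
  set V : Submodule ℂ H := Submodule.span ℂ
    ((fun j : ℕ => (B ^ j) x) '' (Finset.range (p.natDegree + 1) : Set ℕ)) with hV
  have hVf : FiniteDimensional ℂ V := by
    rw [hV]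
    exact FiniteDimensional.span_of_finite ℂ ((Finset.finite_toSet _).image _)
  have hmem : ∀ j ≤ p.natDegree, (B ^ j) x ∈ V := by
    intro j hj
    exact Submodule.subset_span ⟨j, by simpa using Nat.lt_succ_of_le hj, rfl⟩
  have hxV : x ∈ V := by simpa using hmem 0 (Nat.zero_le _)
  set B' : V →L[ℂ] V := V.orthogonalProjectionOnto.comp (B.comp V.subtypeL) with hB'
  have hB'a : ∀ v : V, B' v = V.orthogonalProjectionOnto (B v) := fun v => rfl
  have hpow : ∀ j ≤ p.natDegree, (((B' ^ j) ⟨x, hxV⟩ : V) : H) = (B ^ j) x := by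
    intro j
    induction j with
    | zero => intro _; simp
    | succ j ih =>
      intro hj
      have h1 := ih (by omega)
      have h2 : (B' ^ (j + 1)) ⟨x, hxV⟩ = B' ((B' ^ j) ⟨x, hxV⟩) := by
        rw [pow_succ']; rfl
      have h3 : (B ^ (j + 1)) x = B ((B ^ j) x) := by
        rw [pow_succ']; rfl
      rw [h2, hB'a, h1, ← h3]
      have h4 := V.orthogonalProjectionOnto_mem_subspace_eq_self ⟨_, hmem (j + 1) hj⟩
      rw [h4]
  have haev : ((Polynomial.aeval B' p ⟨x, hxV⟩ : V) : H) = Polynomial.aeval B p x := by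
    rw [Polynomial.aeval_eq_sum_range, Polynomial.aeval_eq_sum_range]
    simp only [sum_apply, smul_apply]
    rw [Submodule.coe_sum]
    refine Finset.sum_congr rfl (fun j hj => ?_)
    rw [Submodule.coe_smul, hpow j (by have := Finset.mem_range.1 hj; omega)]
  have hf := hfin V B' p m hm (fun v hv => ?_)
  · rw [← haev, Submodule.norm_coe]
    refine ((Polynomial.aeval B' p).le_opNorm _).trans ?_
    have h5 : ‖(⟨x, hxV⟩ : V)‖ = ‖x‖ := rfl
    rw [h5]
    gcongr
  · have h1 : inner ℂ v (B' v) = inner ℂ (v : H) (B v) := by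
      rw [hB'a, Submodule.inner_orthogonalProjectionOnto_eq_of_mem_left]
    rw [h1]
    exact hM v (by simpa using hv)

end KZ
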