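import Pool.Agent.Helper39.KZ.Stmts

/-! # Module LIM: `1 / g(t)` tends to `K` as `|t| → 1` -/

set_option autoImplicit false

open Metric Set

namespace KZ

theorem st_LIM : ST_LIM := by
  intro K g hK hg ε hε
  obtain ⟨hKc, hKv, hK0⟩ := hK
  obtain ⟨δ, hδ, hδK⟩ := Metric.mem_nhds_iff.1 (mem_interior_iff_mem_nhds.1 hK0)
  have hKne : K.Nonempty := ⟨0, hδK (mem_ball_self hδ)⟩
  -- the compact set
  set Cs : Set ℂ := {u | u = 0 ∨ ε ≤ infDist u⁻¹ K} with hCs
  have hclosed : IsClosed Cs := by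
    rw [← isOpen_compl_iff, isOpen_iff_mem_nhds]
    intro u hu
    have hu' : u ≠ 0 ∧ infDist u⁻¹ K < ε := by
      simpa [hCs, not_or] using hu
    have h1 : ∀ᶠ v in nhds u, v ≠ 0 := isOpen_ne.mem_nhds hu'.1
    have h2 : ContinuousAt (fun v : ℂ => infDist v⁻¹ K) u :=
      (continuous_infDist_pt K).continuousAt.comp (continuousAt_inv₀ hu'.1)
    have h3 : ∀ᶠ v in nhds u, infDist v⁻¹ K < ε := h2.eventually (Iio_mem_nhds hu'.2)
    filter_upwards [h1, h3] with v hv1 hv2
    simp only [hCs, mem_compl_iff, mem_ofPred_eq, not_or, not_le]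
    exact ⟨hv1, hv2⟩
  have hbdd : Cs ⊆ closedBall 0 (1 / δ) := by
    intro u hu
    rw [mem_closedBall_zero_iff]
    rcases hu with rfl | hu
    · simp only [norm_zero]; positivity
    · by_contra hcon
      push Not at hcon
      have hu0 : 0 < ‖u‖ := lt_trans (by positivity) hcon
      have h1 : u⁻¹ ∈ K := by
        apply hδK
        rw [mem_ball_zero_iff, norm_inv]
        rw [one_div] at hcon
        rw [inv_lt_comm₀ hu0 hδ]
        exact hcon
      have h2 := infDist_zero_of_mem h1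
      linarith
  have hcomp : IsCompact Cs := (isCompact_closedBall (0 : ℂ) (1 / δ)).of_isClosed_subset hclosed hbdd
  have hsub : Cs ⊆ g '' ball 0 1 := by
    rw [hg.image]
    rintro u (rfl | hu)
    · exact Or.inl rfl
    · right
      intro hmem
      have := infDist_zero_of_mem hmem
      linarith
  -- images of balls are open
  have hopen : ∀ r : ℝ, r ≤ 1 → IsOpen (g '' ball 0 r) := by
    intro r hr
    rw [isOpen_iff_mem_nhds]
    rintro _ ⟨t, ht, rfl⟩
    have ht1 : t ∈ ball (0 : ℂ) 1 := ball_subset_ball hr ht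
    have han : AnalyticAt ℂ g t := hg.diff.analyticAt (isOpen_ball.mem_nhds ht1)
    have hsd : HasStrictDerivAt g (deriv g t) t := han.hasStrictDerivAt
    rw [← hsd.map_nhds_eq (hg.der t ht1)]
    exact Filter.image_mem_map (isOpen_ball.mem_nhds ht)
  -- cover
  let U : ℕ → Set ℂ := fun n => g '' ball 0 (1 - 1 / (n + 1 : ℝ))
  have hUo : ∀ n, IsOpen (U n) := fun n => hopen _ (by
    have : (0 : ℝ) ≤ 1 / (n + 1 : ℝ) := by positivity
    linarith)
  have hmono : Monotone U := by
    intro m n hmn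
    apply image_mono
    apply ball_subset_ball
    have : (1 : ℝ) / (n + 1 : ℝ) ≤ 1 / (m + 1 : ℝ) := by
      apply one_div_le_one_div_of_le (by positivity)
      have : (m : ℝ) ≤ n := by exact_mod_cast hmn
      linarith
    linarith
  have hcov : Cs ⊆ ⋃ n, U n := by
    intro u hu
    obtain ⟨t, ht, rfl⟩ := hsub hu
    rw [mem_ball_zero_iff] at ht
    obtain ⟨n, hn⟩ := exists_nat_one_div_lt (sub_pos.2 ht)
    rw [mem_iUnion]
    refine ⟨n, t, ?_, rfl⟩
    rw [mem_ball_zero_iff]
    linarith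
  obtain ⟨n, hn⟩ := hcomp.elim_directed_cover U hUo hcov (directed_of_isDirected_le hmono)
  refine ⟨1 - 1 / (n + 1 : ℝ), ?_, ?_⟩
  · have : (0 : ℝ) < 1 / (n + 1 : ℝ) := by positivity
    linarith
  · intro t ht htn
    have hnot : g t ∉ Cs := by
      intro hmem
      obtain ⟨t', ht', heq⟩ := hn hmem
      have h1 : (0 : ℝ) ≤ 1 / (n + 1 : ℝ) := by positivity
      have ht'1 : t' ∈ ball (0 : ℂ) 1 := ball_subset_ball (by linarith) ht'
      have := hg.inj ht'1 ht heq
      subst this
      rw [mem_ball_zero_iff] at ht'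
      linarith
    have h2 : g t ≠ 0 ∧ infDist (g t)⁻¹ K < ε := by
      simpa [hCs, not_or] using hnot
    obtain ⟨z, hz, hd⟩ := (infDist_lt_iff hKne).1 h2.2
    exact ⟨z, hz, by rwa [dist_eq_norm] at hd⟩

end KZ
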